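import Pool.Agent.H18.Net9

set_option autoImplicit false

namespace Pool.Agent.Results.MP_709e2b_gt.Unbounded

open Pool.Agent.H18.Net

/-- With multiplicities at most some fixed `n`, planar geodesic multinets with exactly three
unbalanced vertices can have arbitrarily many balanced vertices. -/
theorem result :
    ∃ n : ℕ, 1 ≤ n ∧ ∃ U : Finset ℂ, U.card = 3 ∧
      ∀ N : ℕ, ∃ (V : Finset ℂ) (G : SimpleGraph ℂ) (m : ℂ → ℂ → ℕ),
        U ⊆ V ∧
        (∀ a b : ℂ, G.Adj a b → a ∈ V ∧ b ∈ V) ∧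
        (∀ a ∈ V, ∀ b ∈ V, G.Reachable a b) ∧
        (∀ a b c d : ℂ, G.Adj a b → G.Adj c d →
            ¬ ((a = c ∧ b = d) ∨ (a = d ∧ b = c)) →
            ∀ x ∈ segment ℝ a b ∩ segment ℝ c d, (x = a ∨ x = b) ∧ (x = c ∨ x = d)) ∧
        (∀ a b v : ℂ, G.Adj a b → v ∈ V → v ∈ segment ℝ a b → v = a ∨ v = b) ∧
        (∀ a b : ℂ, G.Adj a b → m a b = m b a ∧ 1 ≤ m a b ∧ m a b ≤ n) ∧
        (∀ a b : ℂ, G.Adj a b → ¬ (a ∈ U ∧ b ∈ U)) ∧
        (∀ v ∈ U, (∑ᶠ w ∈ G.neighborSet v,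
            (m v w : ℂ) * ((w - v) / ((‖w - v‖ : ℝ) : ℂ))) ≠ 0) ∧
        (∀ v ∈ V, v ∉ U → 3 ≤ (G.neighborSet v).ncard ∧
            (∑ᶠ w ∈ G.neighborSet v, (m v w : ℂ) * ((w - v) / ((‖w - v‖ : ℝ) : ℂ))) = 0) ∧
        N < (V \ U).card := by
  have hU : ∀ v : ℂ, v ∈ ({T3 1, T3 2, T3 3} : Finset ℂ) ↔ ∃ j : Fin 4, j ≠ 0 ∧ v = T3 j := by
    intro v
    simp only [Finset.mem_insert, Finset.mem_singleton]
    constructor
    · rintro (h | h | h)
      · exact ⟨1, by decide, h⟩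
      · exact ⟨2, by decide, h⟩
      · exact ⟨3, by decide, h⟩
    · rintro ⟨j, hj, rfl⟩
      fin_cases j <;> simp_all
  refine ⟨1600000, by norm_num, {T3 1, T3 2, T3 3}, ?_, fun N => ?_⟩
  · rw [Finset.card_eq_three]
    refine ⟨_, _, _, ?_, ?_, ?_, rfl⟩ <;> simp [T3, Complex.ext_iff]
    norm_num
  obtain ⟨x, y, g⟩ := exists_good3 (2 * N + 4) (by omega) (by omega)
  obtain ⟨V, G, μ, h1, h2, h3, h4, h5, h6, h7, h8, h9, h10, h11⟩ :=
    subdivW (J3 (2 * N + 4)) (p3 x y) (q3 x y) (m3 (2 * N + 4)) g.pq g.sub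
  have hJ : ∀ k, 1 ≤ k → k ≤ 2 * N + 4 → ∀ j : Fin 4, j ≠ 0 → (k, j) ∈ J3 (2 * N + 4) :=
    fun k k1 k2 j hj => mem_J3.mpr ⟨k2, k1, fun h => absurd h hj⟩
  have hw : ∀ k, 1 ≤ k → k ≤ 2 * N + 4 → wv x y k ∈ V :=
    fun k k1 k2 => (h4 _ (hJ k k1 k2 1 (by decide))).1
  have hR : ∀ v ∈ V, G.Reachable v (T3 1) := by
    intro v hv
    obtain ⟨i, hi, hr⟩ := h10 v hv
    obtain ⟨a1, a2, -⟩ := mem_J3.mp hi
    have := h11 _ (hJ i.1 a2 a1 1 (by decide))
    exact hr.trans ((h11 i hi).symm.trans (by simpa [p3, q3] using this))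
  have hbal : ∀ k, k < 2 * N + 4 → 3 ≤ (G.neighborSet (wv x y (k + 1))).ncard ∧
      (∑ᶠ w ∈ G.neighborSet (wv x y (k + 1)), (μ (wv x y (k + 1)) w : ℂ) *
        ((w - wv x y (k + 1)) / ((‖w - wv x y (k + 1)‖ : ℝ) : ℂ))) = 0 := by
    intro k hk
    constructor
    · rw [← h6 _ (hw (k + 1) (by omega) hk)]
      exact act_three g.pq (hJ (k + 1) (by omega) hk 1 (by decide))
        (hJ (k + 1) (by omega) hk 2 (by decide)) (hJ (k + 1) (by omega) hk 3 (by decide))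
        (by simp) (by simp) (by simp) (Or.inl rfl) (Or.inl rfl) (Or.inl rfl)
    · rw [h5 _ (hw (k + 1) (by omega) hk)]
      exact g.bal (by omega) hk
  have hUV : ({T3 1, T3 2, T3 3} : Finset ℂ) ⊆ V := by
    intro v hv
    obtain ⟨j, hj, rfl⟩ := (hU v).mp hv
    simpa [q3, hj] using (h4 _ (hJ 1 le_rfl (by omega) j hj)).2
  refine ⟨V, G, μ, hUV, h1, fun a ha b hb => (hR a ha).trans (hR b hb).symm, h2, h3, ?_, ?_, ?_,
    ?_, ?_⟩
  · intro a b hab
    obtain ⟨i, -, -, -, e⟩ := h9 a b hab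
    exact ⟨h8 a b, e ▸ (m3_bd _ i).1, e ▸ (m3_bd _ i).2⟩
  · rintro a b hab ⟨ha, hb⟩
    obtain ⟨i, hi, s1, s2, -⟩ := h9 a b hab
    obtain ⟨j, -, rfl⟩ := (hU a).mp ha
    obtain ⟨j', -, rfl⟩ := (hU b).mp hb
    exact hab.ne ((g.onseg hi s1).trans (g.onseg hi s2).symm)
  · intro v hv
    rw [h5 v (hUV hv)]
    obtain ⟨j, hj, rfl⟩ := (hU v).mp hv
    exact g.unb (by omega) hj
  · intro v hv hS
    by_cases he : ∃ i ∈ J3 (2 * N + 4), v = p3 x y i ∨ v = q3 x y i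
    · obtain ⟨⟨m, j⟩, hi, h | h⟩ := he
      · obtain ⟨a1, a2, -⟩ := mem_J3.mp hi
        simp only [p3] at h a1 a2
        obtain ⟨m, rfl⟩ : ∃ k, m = k + 1 := ⟨m - 1, by omega⟩
        rw [h]; exact hbal m a1
      · obtain ⟨a1, a2, a3⟩ := mem_J3.mp hi
        simp only [q3] at h a1 a2 a3
        split_ifs at h with hj
        · rw [h]; exact hbal m (a3 hj)
        · exact absurd ((hU v).mpr ⟨j, hj, h⟩) hS
    · push Not at he
      refine ⟨h7 v hv he, ?_⟩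
      rw [h5 v hv]
      unfold IW
      apply Finset.sum_eq_zero
      intro i hi
      rw [if_neg (he i hi).1, if_neg (he i hi).2, sub_zero]
  · have hsub : (Finset.range (2 * N + 4)).image (fun k => wv x y (k + 1)) ⊆ V := by
      intro v hv
      obtain ⟨k, hk, rfl⟩ := Finset.mem_image.mp hv
      exact hw _ (by omega) (Finset.mem_range.mp hk)
    have hle := Finset.card_le_card hsub
    rw [Finset.card_image_of_injOn, Finset.card_range] at hle
    · have c1 := Finset.le_card_sdiff ({T3 1, T3 2, T3 3} : Finset ℂ) V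
      have c2 : ({T3 1, T3 2, T3 3} : Finset ℂ).card ≤ 3 := Finset.card_le_three
      omega
    · intro a ha b hb hab
      have ha' : a < 2 * N + 4 := by simpa using ha
      have hb' : b < 2 * N + 4 := by simpa using hb
      have := g.inj (by omega) (by omega) (by omega) (by omega) hab
      omega

end Pool.Agent.Results.MP_709e2b_gt.Unbounded
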